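import Pool.Agent.Helper41.SQC.Goals

/-!
# SQC-INT: interpolation
-/

set_option autoImplicit false

namespace Pool.Agent.Helper36.SQC

open Pool.Agent.Helper41.SQC

section
variable {M : Type} [AddCommGroup M] [Module ℂ M]

/-- two exponents -/
theorem two_exp (q : ℂ) (hq : q ≠ 0) (hq2 : q ^ 2 ≠ 1) (v w : M)
    (h : ∀ a : ℕ, q ^ a • v - q⁻¹ ^ a • w = 0) : v = 0 ∧ w = 0 := by
  have h0 := h 0
  have h1 := h 1
  rw [pow_zero, pow_zero, one_smul, one_smul, sub_eq_zero] at h0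
  rw [pow_one, pow_one, h0, ← sub_smul] at h1
  have h2 : q - q⁻¹ ≠ 0 := by
    intro h3
    apply hq2
    have h4 : q * (q - q⁻¹) = 0 := by rw [h3, mul_zero]
    rw [mul_sub, mul_inv_cancel₀ hq] at h4
    linear_combination h4
  have h3 : w = 0 := by
    rcases smul_eq_zero.1 h1 with h4 | h4
    · exact absurd h4 h2
    · exact h4
  exact ⟨by rw [h0, h3], h3⟩

/-- three exponents -/
theorem three_exp (q : ℂ) (hq : q ≠ 0) (hq2 : q ^ 2 ≠ 1) (hq4 : q ^ 4 ≠ 1) (u v w : M)
    (h : ∀ a : ℕ, (q ^ a * q ^ a) • u - v + (q⁻¹ ^ a * q⁻¹ ^ a) • w = 0) :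
    u = 0 ∧ v = 0 ∧ w = 0 := by
  have h0 := h 0
  have h1 := h 1
  have h2 := h 2
  simp only [pow_zero, pow_one, mul_one, one_smul] at h0 h1 h2
  have hv : v = u + w := by
    rw [sub_add_eq_add_sub, sub_eq_zero] at h0
    exact h0.symm
  subst hv
  have e1 : (q * q - 1) • u + (q⁻¹ * q⁻¹ - 1) • w = 0 := by
    rw [sub_smul, sub_smul, one_smul, one_smul, ← h1]
    abel
  have e2 : (q ^ 2 * q ^ 2 - 1) • u + (q⁻¹ ^ 2 * q⁻¹ ^ 2 - 1) • w = 0 := by
    rw [sub_smul, sub_smul, one_smul, one_smul, ← h2]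
    abel
  have e3 : ((q ^ 2 * q ^ 2 - 1) - (q⁻¹ * q⁻¹ + 1) * (q * q - 1)) • u = 0 := by
    have h5 : (q⁻¹ * q⁻¹ + 1) • ((q * q - 1) • u + (q⁻¹ * q⁻¹ - 1) • w) = 0 := by
      rw [e1, smul_zero]
    have h6 : (q⁻¹ * q⁻¹ + 1) * (q⁻¹ * q⁻¹ - 1) = q⁻¹ ^ 2 * q⁻¹ ^ 2 - 1 := by ring
    rw [smul_add, smul_smul, smul_smul, h6] at h5
    rw [sub_smul]
    have h7 : (q ^ 2 * q ^ 2 - 1) • u - ((q⁻¹ * q⁻¹ + 1) * (q * q - 1)) • u =
        ((q ^ 2 * q ^ 2 - 1) • u + (q⁻¹ ^ 2 * q⁻¹ ^ 2 - 1) • w) -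
        (((q⁻¹ * q⁻¹ + 1) * (q * q - 1)) • u + (q⁻¹ ^ 2 * q⁻¹ ^ 2 - 1) • w) := by abel
    rw [h7, e2, h5, sub_zero]
  have hz : (q ^ 2 * q ^ 2 - 1) - (q⁻¹ * q⁻¹ + 1) * (q * q - 1) ≠ 0 := by
    intro h8
    have h9 : q ^ 2 * ((q ^ 2 * q ^ 2 - 1) - (q⁻¹ * q⁻¹ + 1) * (q * q - 1)) =
        (q ^ 2 - 1) * (q ^ 4 - 1) := by
      field_simp
      ring
    rw [h8, mul_zero] at h9
    rcases mul_eq_zero.1 h9.symm with h10 | h10
    · exact hq2 (sub_eq_zero.1 h10)
    · exact hq4 (sub_eq_zero.1 h10)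
  have hu : u = 0 := by
    rcases smul_eq_zero.1 e3 with h4 | h4
    · exact absurd h4 hz
    · exact h4
  subst hu
  rw [smul_zero, zero_add] at e1
  have hw : w = 0 := by
    rcases smul_eq_zero.1 e1 with h4 | h4
    · exfalso
      apply hq2
      have h5 : q ^ 2 * (q⁻¹ * q⁻¹ - 1) = 1 - q ^ 2 := by
        field_simp
      rw [h4, mul_zero] at h5
      linear_combination h5
    · exact h4
  subst hw
  exact ⟨rfl, by rw [add_zero], rfl⟩

end

section
variable {A : Type} [Ring A] [Algebra ℂ A]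

/-- the trilinear form -/
def gg (c : ℂ) (U V W : A) : A := U * V * W - c • (U * W * V) + W * U * V

theorem gg_sub1 (c : ℂ) (U U' V W : A) : gg c (U - U') V W = gg c U V W - gg c U' V W := by
  unfold gg
  simp only [sub_mul, mul_sub, smul_sub]
  abel

theorem gg_sub2 (c : ℂ) (U V V' W : A) : gg c U (V - V') W = gg c U V W - gg c U V' W := by
  unfold gg
  simp only [sub_mul, mul_sub, smul_sub]
  abel

theorem gg_sub3 (c : ℂ) (U V W W' : A) : gg c U V (W - W') = gg c U V W - gg c U V W' := by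
  unfold gg
  simp only [sub_mul, mul_sub, smul_sub]
  abel

theorem gg_smul (c a b d : ℂ) (U V W : A) :
    gg c (a • U) (b • V) (d • W) = (a * b * d) • gg c U V W := by
  unfold gg
  simp only [smul_mul_assoc, mul_smul_comm, smul_smul, smul_add, smul_sub]
  module

omit [Algebra ℂ A] in
theorem cen3 (x y z U V W : A) (hy : ∀ t, y * t = t * y) (hz : ∀ t, z * t = t * z) :
    (x * U) * (y * V) * (z * W) = x * y * z * (U * V * W) := by
  have h1 : U * y = y * U := (hy U).symm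
  have h2 : (U * V) * z = z * (U * V) := (hz _).symm
  calc (x * U) * (y * V) * (z * W) = x * (U * y) * V * z * W := by noncomm_ring
    _ = x * (y * U) * V * z * W := by rw [h1]
    _ = x * y * ((U * V) * z) * W := by noncomm_ring
    _ = x * y * (z * (U * V)) * W := by rw [h2]
    _ = x * y * z * (U * V * W) := by noncomm_ring

omit [Algebra ℂ A] in
theorem cen2 (x y U V : A) (hy : ∀ t, y * t = t * y) :
    (x * U) * (y * V) = x * y * (U * V) := by
  have h1 : U * y = y * U := (hy U).symm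
  calc (x * U) * (y * V) = x * (U * y) * V := by noncomm_ring
    _ = x * (y * U) * V := by rw [h1]
    _ = x * y * (U * V) := by noncomm_ring

theorem gg_cen (c : ℂ) (x y z U V W : A) (hx : ∀ t, x * t = t * x) (hy : ∀ t, y * t = t * y)
    (hz : ∀ t, z * t = t * z) :
    gg c (x * U) (y * V) (z * W) = x * y * z * gg c U V W := by
  unfold gg
  rw [cen3 x y z U V W hy hz, cen3 x z y U W V hz hy, cen3 z x y W U V hx hy]
  have h1 : x * z * y = x * y * z := by
    rw [mul_assoc, hz y, ← mul_assoc]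
  have h2 : z * x * y = x * y * z := by
    rw [mul_assoc, hz (x * y)]
  rw [h1, h2, mul_add, mul_sub, mul_smul_comm]

end

theorem gg_map {R S : Type} [Ring R] [Algebra ℂ R] [Ring S] [Algebra ℂ S] (f : R →ₐ[ℂ] S) (c : ℂ)
    (U V W : R) : gg c (f U) (f V) (f W) = f (gg c U V W) := by
  unfold gg
  simp only [map_add, map_sub, map_smul, map_mul]

theorem c_int : S_INT := by
  intro R S _ _ _ _ l q hodd hl hq f P Q P' Q' x xi y yi hx hxi hy hyi
  have hq0 : q ≠ 0 := hq.ne_zero (by omega)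
  have hq2 : q ^ 2 ≠ 1 := by
    intro h
    have h1 := hq.dvd_of_pow_eq_one 2 h
    have h2 := Nat.le_of_dvd (by norm_num) h1
    omega
  have hq4 : q ^ 4 ≠ 1 := by
    intro h
    have h1 := hq.dvd_of_pow_eq_one 4 h
    have h2 := Nat.le_of_dvd (by norm_num) h1
    obtain ⟨k, hk⟩ := hodd
    interval_cases l
    · omega
    · omega
  refine ⟨?_, ?_, ?_, ?_⟩
  · intro h
    have key : ∀ a : ℕ,
        ((q ^ a • P - q⁻¹ ^ a • Q) * P' - P' * (q ^ a • P - q⁻¹ ^ a • Q) = 0) ∧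
        ((q ^ a • P - q⁻¹ ^ a • Q) * Q' - Q' * (q ^ a • P - q⁻¹ ^ a • Q) = 0) := by
      intro a
      apply two_exp q hq0 hq2
      intro b
      have h1 := h a b
      rw [← sub_eq_zero] at h1
      rw [← h1]
      simp only [mul_sub, sub_mul, mul_smul_comm, smul_mul_assoc, smul_sub, smul_smul]
      simp only [mul_comm (q ^ b), mul_comm (q⁻¹ ^ b)]
      abel
    have kP : P * P' - P' * P = 0 ∧ Q * P' - P' * Q = 0 := by
      apply two_exp q hq0 hq2
      intro a
      rw [← (key a).1]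
      simp only [mul_sub, sub_mul, mul_smul_comm, smul_mul_assoc, smul_sub]
      abel
    have kQ : P * Q' - Q' * P = 0 ∧ Q * Q' - Q' * Q = 0 := by
      apply two_exp q hq0 hq2
      intro a
      rw [← (key a).2]
      simp only [mul_sub, sub_mul, mul_smul_comm, smul_mul_assoc, smul_sub]
      abel
    have e1 : f P * f P' = f P' * f P := by rw [← map_mul, ← map_mul, sub_eq_zero.1 kP.1]
    have e2 : f Q * f P' = f P' * f Q := by rw [← map_mul, ← map_mul, sub_eq_zero.1 kP.2]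
    have e3 : f P * f Q' = f Q' * f P := by rw [← map_mul, ← map_mul, sub_eq_zero.1 kQ.1]
    have e4 : f Q * f Q' = f Q' * f Q := by rw [← map_mul, ← map_mul, sub_eq_zero.1 kQ.2]
    simp only [mul_sub, sub_mul]
    rw [cen2 x y _ _ hy, cen2 xi y _ _ hy, cen2 x yi _ _ hyi, cen2 xi yi _ _ hyi,
      cen2 y x _ _ hx, cen2 yi x _ _ hx, cen2 y xi _ _ hxi, cen2 yi xi _ _ hxi,
      e1, e2, e3, e4, hx y, hx yi, hxi y, hxi yi]
    abel
  · intro h
    set c : ℂ := q + q⁻¹ with hc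
    have h' : ∀ a b : ℕ, gg c (q ^ a • P - q⁻¹ ^ a • Q) (q ^ a • P - q⁻¹ ^ a • Q)
        (q ^ b • P' - q⁻¹ ^ b • Q') = 0 := by
      intro a b
      rw [← h a b]
      unfold gg
      rw [pow_two]
      simp only [mul_assoc]
    have hexp : ∀ (a : ℕ) (W : R), gg c (q ^ a • P - q⁻¹ ^ a • Q) (q ^ a • P - q⁻¹ ^ a • Q) W =
        (q ^ a * q ^ a) • gg c P P W - (gg c P Q W + gg c Q P W) +
          (q⁻¹ ^ a * q⁻¹ ^ a) • gg c Q Q W := by
      intro a W
      have hW : W = (1 : ℂ) • W := (one_smul _ _).symm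
      have hqa : q ^ a * q⁻¹ ^ a = 1 := by rw [← mul_pow, mul_inv_cancel₀ hq0, one_pow]
      have hqa' : q⁻¹ ^ a * q ^ a = 1 := by rw [← mul_pow, inv_mul_cancel₀ hq0, one_pow]
      conv_lhs => rw [hW]
      rw [gg_sub1, gg_sub2, gg_sub2, gg_smul, gg_smul, gg_smul, gg_smul, mul_one, mul_one,
        mul_one, mul_one, hqa, hqa', one_smul, one_smul]
      abel
    have key : ∀ a : ℕ,
        (gg c (q ^ a • P - q⁻¹ ^ a • Q) (q ^ a • P - q⁻¹ ^ a • Q) P' = 0) ∧
        (gg c (q ^ a • P - q⁻¹ ^ a • Q) (q ^ a • P - q⁻¹ ^ a • Q) Q' = 0) := by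
      intro a
      apply two_exp q hq0 hq2
      intro b
      rw [← h' a b, gg_sub3]
      have hs : ∀ (d : ℂ) (W : R), d • gg c (q ^ a • P - q⁻¹ ^ a • Q) (q ^ a • P - q⁻¹ ^ a • Q) W =
          gg c (q ^ a • P - q⁻¹ ^ a • Q) (q ^ a • P - q⁻¹ ^ a • Q) (d • W) := by
        intro d W
        have := gg_smul c 1 1 d (q ^ a • P - q⁻¹ ^ a • Q) (q ^ a • P - q⁻¹ ^ a • Q) W
        rw [one_smul, one_mul, one_mul] at this
        exact this.symm
      rw [hs, hs]
    have kP : gg c P P P' = 0 ∧ gg c P Q P' + gg c Q P P' = 0 ∧ gg c Q Q P' = 0 := by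
      apply three_exp q hq0 hq2 hq4
      intro a
      rw [← hexp]
      exact (key a).1
    have kQ : gg c P P Q' = 0 ∧ gg c P Q Q' + gg c Q P Q' = 0 ∧ gg c Q Q Q' = 0 := by
      apply three_exp q hq0 hq2 hq4
      intro a
      rw [← hexp]
      exact (key a).2
    have hfin : gg c (x * f P - xi * f Q) (x * f P - xi * f Q) (y * f P' - yi * f Q') = 0 := by
      rw [gg_sub3, gg_sub1, gg_sub2, gg_sub2, gg_sub1, gg_sub2, gg_sub2,
        gg_cen c x x y _ _ _ hx hx hy, gg_cen c x xi y _ _ _ hx hxi hy,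
        gg_cen c xi x y _ _ _ hxi hx hy, gg_cen c xi xi y _ _ _ hxi hxi hy,
        gg_cen c x x yi _ _ _ hx hx hyi, gg_cen c x xi yi _ _ _ hx hxi hyi,
        gg_cen c xi x yi _ _ _ hxi hx hyi, gg_cen c xi xi yi _ _ _ hxi hxi hyi]
      simp only [gg_map]
      rw [kP.1, kP.2.2, kQ.1, kQ.2.2, map_zero, hxi x]
      have e1 : f (gg c P Q P') = - f (gg c Q P P') := by
        rw [eq_neg_iff_add_eq_zero, ← map_add, kP.2.1, map_zero]
      have e2 : f (gg c P Q Q') = - f (gg c Q P Q') := by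
        rw [eq_neg_iff_add_eq_zero, ← map_add, kQ.2.1, map_zero]
      rw [e1, e2]
      simp only [mul_zero, mul_neg]
      abel
    rw [← hfin]
    unfold gg
    rw [pow_two]
    simp only [mul_assoc]
  · intro F H H' c h
    have k : (P * F - F * P - c • H = 0) ∧ (Q * F - F * Q - c • H' = 0) := by
      apply two_exp q hq0 hq2
      intro a
      have h1 := h a
      rw [← sub_eq_zero] at h1
      rw [← h1]
      simp only [mul_sub, sub_mul, mul_smul_comm, smul_mul_assoc, smul_sub, smul_smul]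
      simp only [mul_comm (q ^ a), mul_comm (q⁻¹ ^ a)]
      abel
    have e1 : f P * f F = f F * f P + c • f H := by
      rw [← map_mul, ← map_mul, ← map_smul, ← map_add, ← sub_eq_zero, ← map_sub]
      rw [← sub_sub, k.1, map_zero]
    have e2 : f Q * f F = f F * f Q + c • f H' := by
      rw [← map_mul, ← map_mul, ← map_smul, ← map_add, ← sub_eq_zero, ← map_sub]
      rw [← sub_sub, k.2, map_zero]
    have m1 : f F * (x * f P) = x * (f F * f P) := by
      rw [← mul_assoc, ← hx, mul_assoc]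
    have m2 : f F * (xi * f Q) = xi * (f F * f Q) := by
      rw [← mul_assoc, ← hxi, mul_assoc]
    rw [sub_mul, mul_sub, m1, m2, mul_assoc, mul_assoc, e1, e2, mul_add, mul_add, smul_sub,
      mul_smul_comm, mul_smul_comm]
    abel
  · intro D c h
    have k : (D * P - c • (P * D) = 0) ∧ (D * Q - c • (Q * D) = 0) := by
      apply two_exp q hq0 hq2
      intro a
      have h1 := h a
      rw [← sub_eq_zero] at h1
      rw [← h1]
      simp only [mul_sub, sub_mul, mul_smul_comm, smul_mul_assoc, smul_sub, smul_smul]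
      simp only [mul_comm (q ^ a), mul_comm (q⁻¹ ^ a)]
      abel
    have e1 : f D * f P = c • (f P * f D) := by
      rw [← map_mul, ← map_mul, ← map_smul, sub_eq_zero.1 k.1]
    have e2 : f D * f Q = c • (f Q * f D) := by
      rw [← map_mul, ← map_mul, ← map_smul, sub_eq_zero.1 k.2]
    have m1 : f D * (x * f P) = x * (f D * f P) := by
      rw [← mul_assoc, ← hx, mul_assoc]
    have m2 : f D * (xi * f Q) = xi * (f D * f Q) := by
      rw [← mul_assoc, ← hxi, mul_assoc]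
    rw [mul_sub, sub_mul, m1, m2, e1, e2, smul_sub, mul_smul_comm, mul_smul_comm, mul_assoc,
      mul_assoc]

end Pool.Agent.Helper36.SQC
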